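import Pool.Agent.H20.RCC.Stmts

/-!
# Row GAM of the board `rcc`: soundness of the certificate
-/

set_option autoImplicit false

namespace Pool.RCC

theorem gam_mem (x : ℕ) (l : List ℕ) : mem x l = true ↔ x ∈ l := by
  induction l with
  | nil => simp [mem]
  | cons y t ih =>
    rw [mem, List.mem_cons]
    cases h : Nat.beq x y with
    | true => simp [Nat.eq_of_beq_eq_true h]
    | false =>
      have h1 : x ≠ y := Nat.ne_of_beq_eq_false h
      rw [cond_false, ih]
      simp [h1]

theorem gam_mono {m m' x : ℕ} (h : m ≤ m') (hx : Gk m x) : Gk m' x := by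
  intro k v hv he
  obtain ⟨w, w1, w2, w3⟩ := hx k v hv he
  exact ⟨w, w1, w2.trans h, w3⟩

theorem GAM_thm (hR : RESStmt) (hE : ENCStmt) (hO : OKSStmt) : GAMStmt := by
  intro C
  induction C with
  | nil =>
    intro done n _ _ e he
    cases he
  | cons e0 rest ih =>
    obtain ⟨k0, δ0, a0, S0, I0⟩ := e0
    intro done n hd hc e he
    simp only [chk, Bool.and_eq_true, decide_eq_true_eq, List.all_eq_true] at hc
    obtain ⟨⟨⟨⟨⟨⟨c1, c2⟩, c3⟩, c4⟩, c5⟩, c6⟩, c7⟩ := hc
    have first : Gk (n + 1) (k0 * 262144 + a0) := by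
      intro k v hv hx
      have hb := (hE v).1
      have hk : k = k0 ∧ enc v = a0 := by omega
      obtain ⟨hk, ha⟩ := hk
      subst hk
      have hM : Mt a0 v := ha ▸ (hE v).2.2.1
      rcases hR k δ0 a0 I0 S0 v hv c1 c3 hM c5 with h | h
      · refine ⟨[δ0], fun δ hδ => ?_, by simp, Or.inl h⟩
        rw [List.mem_singleton] at hδ
        rw [hδ]
        exact c3
      · obtain ⟨w, w1, w2, w3⟩ := hd _ ((gam_mem _ _).1 (c6 _ h)) (nk k δ0) (stp k δ0 v)
          (hO k δ0 v hv) rfl
        refine ⟨δ0 :: w, fun δ hδ => ?_, ?_, Or.inr w3⟩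
        · rcases List.mem_cons.1 hδ with hδ | hδ
          · rw [hδ]
            exact c3
          · exact w1 δ hδ
        · rw [List.length_cons]
          omega
    rcases List.mem_cons.1 he with he | he
    · rw [he]
      refine gam_mono ?_ first
      rw [List.length_cons]
      omega
    · have h1 := ih ((k0 * 262144 + a0) :: done) (n + 1) (by
        intro x hx
        rcases List.mem_cons.1 hx with hx | hx
        · rw [hx]
          exact first
        · exact gam_mono (Nat.le_succ n) (hd x hx)) c7 e he
      rw [List.length_cons, show n + (rest.length + 1) = n + 1 + rest.length by omega]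
      exact h1

end Pool.RCC
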